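import Mathlib

set_option autoImplicit false

open Finset

namespace Pool.Agent.Results.MP_38a930_nt.Neg

/-- `w p a`: the largest power of `p` dividing the nonzero integer `a`. -/
def w (p : ℕ) (a : ℤ) : ℕ := p ^ padicValInt p a

/-- `a` is a `p`-ordering of `X`: every term lies in `X`, and `a k` minimises the `p`-adic
valuation of `∏_{i<k} (x - a i)` over `x ∈ X` (the product `0` has valuation `∞`). -/
def IsPOrdering (X : Set ℤ) (p : ℕ) (a : ℕ → ℤ) : Prop :=
  (∀ k, a k ∈ X) ∧ ∀ k, ∀ x ∈ X,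
    emultiplicity (p : ℤ) (∏ i ∈ range k, (a k - a i)) ≤
      emultiplicity (p : ℤ) (∏ i ∈ range k, (x - a i))

/-- `ν_k(X, p)` computed from the `p`-ordering `a`. -/
def nu (p : ℕ) (a : ℕ → ℤ) (k : ℕ) : ℕ := w p (∏ i ∈ range k, (a k - a i))

/-- The Bhargava factorial `k!_X = ∏_p ν_k(X, p)`, computed from one `p`-ordering `a p` of `X`
for each prime `p`. -/
noncomputable def fact (a : Nat.Primes → ℕ → ℤ) (k : ℕ) : ℕ :=
  ∏ᶠ p : Nat.Primes, nu p (a p) k

/-- The twin primes: primes `p` with `p - 2` or `p + 2` prime. -/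
def P2 : Set ℤ := {q | ∃ p : ℕ, p.Prime ∧ ((∃ r : ℕ, r.Prime ∧ p = r + 2) ∨ (p + 2).Prime) ∧ q = p}

/-- The primes lying in a prime quadruplet `(p, p+2, p+6, p+8)`. -/
def P4 : Set ℤ :=
  {q | ∃ p : ℕ, p.Prime ∧ (p + 2).Prime ∧ (p + 6).Prime ∧ (p + 8).Prime ∧
    (q = p ∨ q = p + 2 ∨ q = p + 6 ∨ q = p + 8)}

theorem exists_ordering (X : Set ℤ) (hX : X.Nonempty) (p : ℕ) : ∃ a, IsPOrdering X p a := by
  classical
  have h : ∀ (k : ℕ) (f : ℕ → ℤ), ∃ y ∈ X, ∀ x ∈ X,
      emultiplicity (p : ℤ) (∏ i ∈ range k, (y - f i)) ≤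
        emultiplicity (p : ℤ) (∏ i ∈ range k, (x - f i)) := by
    intro k f
    obtain ⟨m, ⟨y, hy, rfl⟩, hm⟩ := (wellFounded_lt (α := ℕ∞)).has_min
      ((fun x => emultiplicity (p : ℤ) (∏ i ∈ range k, (x - f i))) '' X) (hX.image _)
    exact ⟨y, hy, fun x hx => not_lt.mp (hm _ ⟨x, hx, rfl⟩)⟩
  choose g hg1 hg2 using h
  let F : ℕ → ℕ → ℤ := fun k =>
    Nat.rec (fun _ => 0) (fun k f => Function.update f k (g k f)) k
  have hF : ∀ k, F (k + 1) = Function.update (F k) k (g k (F k)) := fun _ => rfl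
  have hFa : ∀ k i, i < k → F k i = g i (F i) := by
    intro k
    induction k with
    | zero => intro i hi; omega
    | succ k ih =>
      intro i hi
      rw [hF]
      by_cases hik : i = k
      · subst hik; simp
      · rw [Function.update_of_ne hik]; exact ih i (by omega)
  refine ⟨fun k => g k (F k), fun k => hg1 _ _, fun k x hx => ?_⟩
  have e : ∀ y : ℤ, ∏ i ∈ range k, (y - g i (F i)) = ∏ i ∈ range k, (y - F k i) :=
    fun y => prod_congr rfl fun i hi => by rw [hFa k i (mem_range.mp hi)]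
  simp only [e]
  exact hg2 _ _ x hx

theorem not_dvd {X : Set ℤ} {p : ℕ} (hp : p.Prime) {a : ℕ → ℤ} (ha : IsPOrdering X p a)
    (s : Finset ℤ) (hs : ∀ x ∈ s, x ∈ X) {k : ℕ} (hk : k < s.card)
    (hinc : ∀ x ∈ s, ∀ y ∈ s, (p : ℤ) ∣ x - y → x = y) :
    ¬ (p : ℤ) ∣ ∏ i ∈ range k, (a k - a i) := by
  intro hd
  have hpz : Prime (p : ℤ) := Nat.prime_iff_prime_int.mp hp
  have h1 : ∀ x ∈ s, ∃ i ∈ range k, (p : ℤ) ∣ x - a i := by
    intro x hx
    have h2 := ha.2 k x (hs x hx)
    have h3 : emultiplicity (p : ℤ) (∏ i ∈ range k, (a k - a i)) ≠ 0 := by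
      rw [Ne, emultiplicity_eq_zero]; exact not_not.mpr hd
    have h4 : emultiplicity (p : ℤ) (∏ i ∈ range k, (x - a i)) ≠ 0 := by
      intro h0; rw [h0] at h2; exact h3 (le_antisymm h2 bot_le)
    rw [Ne, emultiplicity_eq_zero, not_not] at h4
    exact (hpz.dvd_finset_prod_iff _).mp h4
  choose! f hf1 hf2 using h1
  have := card_le_card_of_injOn (s := s) (t := range k) f (fun x hx => hf1 x hx) (by
    intro x hx y hy hxy
    apply hinc x hx y hy
    have := dvd_sub (hf2 x hx) (hf2 y hy)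
    rw [hxy] at this
    simpa using this)
  rw [card_range] at this
  omega

theorem ne_zero {X : Set ℤ} {p : ℕ} (hp : p.Prime) {a : ℕ → ℤ} (ha : IsPOrdering X p a)
    (s : Finset ℤ) (hs : ∀ x ∈ s, x ∈ X) {k : ℕ} (hk : k < s.card) :
    ∏ i ∈ range k, (a k - a i) ≠ 0 := by
  intro h0
  have h1 : s ⊆ (range k).image a := by
    intro x hx
    have h2 := ha.2 k x (hs x hx)
    rw [h0, emultiplicity_zero, top_le_iff, emultiplicity_eq_top, Int.finiteMultiplicity_iff] at h2
    have h3 : ∏ i ∈ range k, (x - a i) = 0 := by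
      by_contra h; exact h2 ⟨by simpa using hp.one_lt.ne', h⟩
    obtain ⟨i, hi, hi0⟩ := prod_eq_zero_iff.mp h3
    exact mem_image.mpr ⟨i, hi, by omega⟩
  have := (card_le_card h1).trans card_image_le
  rw [card_range] at this
  omega

theorem fin_supp {X : Set ℤ} {a : Nat.Primes → ℕ → ℤ} (ha : ∀ p, IsPOrdering X p.1 (a p))
    (s : Finset ℤ) (hs : ∀ x ∈ s, x ∈ X) {k : ℕ} (hk : k < s.card)
    (hb : ∀ x ∈ s, 0 ≤ x ∧ x ≤ 16064) :
    (Function.mulSupport fun p : Nat.Primes => nu p (a p) k).Finite := by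
  refine ((Set.finite_Iic 16064).preimage (f := fun p : Nat.Primes => p.1)
    Subtype.val_injective.injOn).subset ?_
  intro p hp
  by_contra hlt
  have hlt' : 16064 < p.1 := by simpa using hlt
  apply hp
  have := not_dvd p.2 (ha p) s hs hk (by
    intro x hx y hy hd
    have h1 := hb x hx
    have h2 := hb y hy
    have := Int.eq_zero_of_abs_lt_dvd hd (by rw [abs_lt]; constructor <;> omega)
    omega)
  simp only [nu, w]
  rw [padicValInt.eq_zero_of_not_dvd this, pow_zero]

def s28 : Finset ℤ :=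
  {5, 7, 11, 13, 17, 19, 101, 103, 107, 109, 197, 199, 821, 827, 1481, 1483, 1487, 1489, 
  1877, 2083, 2087, 2089, 3251, 3463, 3469, 5653, 9431, 16063}

def t29 : Finset ℤ :=
  {3, 5, 7, 11, 13, 17, 19, 29, 31, 41, 43, 59, 73, 103, 107, 109, 137, 139, 149, 151, 199, 
  227, 229, 241, 269, 271, 347, 433, 569}

theorem mem4 (p : ℕ) (h : p.Prime ∧ (p + 2).Prime ∧ (p + 6).Prime ∧ (p + 8).Prime) :
    (p : ℤ) ∈ P4 ∧ (p : ℤ) + 2 ∈ P4 ∧ (p : ℤ) + 6 ∈ P4 ∧ (p : ℤ) + 8 ∈ P4 :=
  ⟨⟨p, h.1, h.2.1, h.2.2.1, h.2.2.2, by simp⟩, ⟨p, h.1, h.2.1, h.2.2.1, h.2.2.2, by simp⟩,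
    ⟨p, h.1, h.2.1, h.2.2.1, h.2.2.2, by simp⟩, ⟨p, h.1, h.2.1, h.2.2.1, h.2.2.2, by simp⟩⟩

theorem s29_sub : ∀ x ∈ insert 191 s28, x ∈ P4 := by
  have h5 := mem4 5 (by norm_num)
  norm_num at h5
  have h11 := mem4 11 (by norm_num)
  norm_num at h11
  have h101 := mem4 101 (by norm_num)
  norm_num at h101
  have h191 := mem4 191 (by norm_num)
  norm_num at h191
  have h821 := mem4 821 (by norm_num)
  norm_num at h821
  have h1481 := mem4 1481 (by norm_num)
  norm_num at h1481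
  have h1871 := mem4 1871 (by norm_num)
  norm_num at h1871
  have h2081 := mem4 2081 (by norm_num)
  norm_num at h2081
  have h3251 := mem4 3251 (by norm_num)
  norm_num at h3251
  have h3461 := mem4 3461 (by norm_num)
  norm_num at h3461
  have h5651 := mem4 5651 (by norm_num)
  norm_num at h5651
  have h9431 := mem4 9431 (by norm_num)
  norm_num at h9431
  have h16061 := mem4 16061 (by norm_num)
  norm_num at h16061
  simp only [s28, mem_insert, mem_singleton, forall_eq_or_imp, forall_eq]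
  simp only [*, and_self]

theorem mem2 (p : ℕ) (h : p.Prime ∧ (p + 2).Prime) : (p : ℤ) ∈ P2 ∧ (p : ℤ) + 2 ∈ P2 :=
  ⟨⟨p, h.1, Or.inr h.2, rfl⟩, ⟨p + 2, h.2, Or.inl ⟨p, h.1, rfl⟩, by simp⟩⟩

theorem t29_sub : ∀ x ∈ t29, x ∈ P2 := by
  have h3 := mem2 3 (by norm_num)
  norm_num at h3
  have h5 := mem2 5 (by norm_num)
  norm_num at h5
  have h11 := mem2 11 (by norm_num)
  norm_num at h11
  have h17 := mem2 17 (by norm_num)
  norm_num at h17
  have h29 := mem2 29 (by norm_num)
  norm_num at h29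
  have h41 := mem2 41 (by norm_num)
  norm_num at h41
  have h59 := mem2 59 (by norm_num)
  norm_num at h59
  have h71 := mem2 71 (by norm_num)
  norm_num at h71
  have h101 := mem2 101 (by norm_num)
  norm_num at h101
  have h107 := mem2 107 (by norm_num)
  norm_num at h107
  have h137 := mem2 137 (by norm_num)
  norm_num at h137
  have h149 := mem2 149 (by norm_num)
  norm_num at h149
  have h197 := mem2 197 (by norm_num)
  norm_num at h197
  have h227 := mem2 227 (by norm_num)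
  norm_num at h227
  have h239 := mem2 239 (by norm_num)
  norm_num at h239
  have h269 := mem2 269 (by norm_num)
  norm_num at h269
  have h347 := mem2 347 (by norm_num)
  norm_num at h347
  have h431 := mem2 431 (by norm_num)
  norm_num at h431
  have h569 := mem2 569 (by norm_num)
  norm_num at h569
  simp only [t29, mem_insert, mem_singleton, forall_eq_or_imp, forall_eq]
  simp only [*, and_self]

theorem P4_not_dvd : ∀ x ∈ P4, ¬ (29 : ℤ) ∣ x := by
  have key : ∀ q : ℕ, q.Prime → (29 : ℤ) ∣ q → q = 29 := by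
    intro q hq hd
    have : 29 ∣ q := by exact_mod_cast hd
    exact ((Nat.prime_dvd_prime_iff_eq (by norm_num) hq).mp this).symm
  rintro x ⟨p, h0, h2, h6, h8, rfl | rfl | rfl | rfl⟩ hd
  · have := key p h0 hd
    subst this; norm_num at h6
  · have := key (p + 2) h2 (by exact_mod_cast hd)
    obtain rfl : p = 27 := by omega
    norm_num at h0
  · have := key (p + 6) h6 (by exact_mod_cast hd)
    obtain rfl : p = 23 := by omega
    norm_num at h2
  · have := key (p + 8) h8 (by exact_mod_cast hd)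
    obtain rfl : p = 21 := by omega
    norm_num at h0

theorem dvd28 {a : ℕ → ℤ} (ha : IsPOrdering P4 29 a) :
    (29 : ℤ) ∣ ∏ i ∈ range 28, (a 28 - a i) := by
  have hnd : ∀ k < 28, ∀ i < k, ¬ (29 : ℤ) ∣ a k - a i := by
    intro k hk i hi hd
    have := not_dvd (p := 29) (by norm_num) ha s28
      (fun x hx => s29_sub x (mem_insert_of_mem hx)) (k := k)
      (by rw [show s28.card = 28 by decide +kernel]; exact hk) (by decide +kernel)
    exact this (hd.trans (dvd_prod_of_mem _ (mem_range.mpr hi)))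
  obtain ⟨i, hi, j, hj, hij, he⟩ := exists_ne_map_eq_of_card_lt_of_maps_to
    (s := range 29) (t := Finset.Ioo (0 : ℤ) 29) (f := fun i => a i % 29) (by simp) (by
      intro i _
      have := P4_not_dvd _ (ha.1 i)
      simp only [coe_Ioo, Set.mem_Ioo]
      omega)
  have hi' := mem_range.mp hi
  have hj' := mem_range.mp hj
  have he' : a i % 29 = a j % 29 := he
  rcases lt_or_gt_of_ne hij with h | h
  · have hd : (29 : ℤ) ∣ a j - a i := by omega
    by_cases h28 : j = 28
    · subst h28; exact hd.trans (dvd_prod_of_mem _ (mem_range.mpr h))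
    · exact absurd hd (hnd j (by omega) i h)
  · have hd : (29 : ℤ) ∣ a i - a j := by omega
    by_cases h28 : i = 28
    · subst h28; exact hd.trans (dvd_prod_of_mem _ (mem_range.mpr h))
    · exact absurd hd (hnd i (by omega) j h)

theorem result :
    (∃ a : Nat.Primes → ℕ → ℤ, ∀ p : Nat.Primes, IsPOrdering P4 p (a p)) ∧
    (∃ b : Nat.Primes → ℕ → ℤ, ∀ p : Nat.Primes, IsPOrdering P2 p (b p)) ∧
    ∃ n : ℕ, 1 ≤ n ∧ (∃ s : Finset ℤ, (s : Set ℤ) ⊆ P4 ∧ n < s.card) ∧
      (∃ s : Finset ℤ, (s : Set ℤ) ⊆ P2 ∧ n < s.card) ∧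
      ∀ a b : Nat.Primes → ℕ → ℤ,
        (∀ p : Nat.Primes, IsPOrdering P4 p (a p)) → (∀ p : Nat.Primes, IsPOrdering P2 p (b p)) →
        (Function.mulSupport fun p : Nat.Primes => nu p (a p) n).Finite ∧
        (Function.mulSupport fun p : Nat.Primes => nu p (b p) n).Finite ∧
        (fact a n : ℚ) / (fact b n : ℚ) ≠
          if Even n then ((3 * w 3 n : ℕ) : ℚ) else 1 := by
  have c29 : (insert 191 s28).card = 29 := by decide +kernel
  have ct : t29.card = 29 := by decide +kernel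
  refine ⟨?_, ?_, 28, by norm_num, ⟨insert 191 s28, s29_sub, by omega⟩,
    ⟨t29, t29_sub, by omega⟩, fun a b ha hb => ?_⟩
  · choose a ha using fun p : Nat.Primes =>
      exists_ordering P4 ⟨191, s29_sub _ (mem_insert_self _ _)⟩ p
    exact ⟨a, ha⟩
  · choose a ha using fun p : Nat.Primes =>
      exists_ordering P2 ⟨3, t29_sub 3 (by decide +kernel)⟩ p
    exact ⟨a, ha⟩
  have fa := fin_supp ha _ s29_sub (k := 28) (by omega) (by decide +kernel)
  have fb := fin_supp hb _ t29_sub (k := 28) (by omega) (by decide +kernel)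
  refine ⟨fa, fb, ?_⟩
  have p29 : Nat.Prime 29 := by norm_num
  haveI : Fact (Nat.Prime 29) := ⟨p29⟩
  have hA : 29 ∣ fact a 28 := by
    refine dvd_trans ?_ (finprod_mem_dvd (⟨29, p29⟩ : Nat.Primes) fa)
    have h0 := ne_zero p29 (ha ⟨29, p29⟩) _ s29_sub (k := 28) (by omega)
    have h1 := dvd28 (ha ⟨29, p29⟩)
    apply dvd_pow_self
    have h2 := (padicValInt_dvd_iff (p := 29) 1 _).mp (by simpa using h1)
    rcases h2 with h2 | h2
    · exact absurd h2 h0
    · exact Nat.one_le_iff_ne_zero.mp h2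
  have coprime : ∀ (q : ℕ) (e : ℕ), q.Prime → q ≠ 29 → ¬ 29 ∣ q ^ e := fun q e hq hne hd =>
    hne ((Nat.prime_dvd_prime_iff_eq p29 hq).mp (p29.dvd_of_dvd_pow hd)).symm
  have hB : ¬ 29 ∣ fact b 28 := by
    refine finprod_induction (fun x => ¬ 29 ∣ x) (by norm_num)
      (fun x y hx hy h => (p29.dvd_mul.mp h).elim hx hy) fun q => ?_
    by_cases hq : q.1 = 29
    · obtain rfl : q = ⟨29, p29⟩ := Subtype.ext hq
      have := not_dvd p29 (hb ⟨29, p29⟩) t29 t29_sub (k := 28) (by omega) (by decide +kernel)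
      simp only [nu, w]
      rw [padicValInt.eq_zero_of_not_dvd this]
      norm_num
    · exact coprime _ _ q.2 hq
  have hB0 : (fact b 28 : ℚ) ≠ 0 := by
    intro h
    have : fact b 28 = 0 := by exact_mod_cast h
    exact hB (this ▸ dvd_zero _)
  rw [if_pos (by decide), Ne, div_eq_iff hB0]
  intro h
  have h' : fact a 28 = 3 * w 3 ((28 : ℕ) : ℤ) * fact b 28 := by
    exact_mod_cast h
  rw [h'] at hA
  rcases p29.dvd_mul.mp hA with h1 | h1
  · rcases p29.dvd_mul.mp h1 with h2 | h2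
    · norm_num at h2
    · exact coprime 3 _ (by norm_num) (by norm_num) h2
  · exact hB h1

end Pool.Agent.Results.MP_38a930_nt.Neg
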